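import Mathlib

set_option autoImplicit false

namespace Pool.Agent.Results.MP_a0e11f_co.No

open Finset

/-- A signed permutation of `{±1, …, ±n}`: an underlying permutation and the signs of the
values `π_1, …, π_n` (`true` = negative). -/
abbrev SPerm (n : ℕ) := Equiv.Perm (Fin n) × (Fin n → Bool)

/-- The value `π_{i+1}` (positions are `0`-indexed). -/
def val {n : ℕ} (π : SPerm n) (i : Fin n) : ℤ :=
  (if π.2 i = true then -1 else 1) * ((π.1 i : ℕ) + 1 : ℤ)

/-- The inverse signed permutation. -/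
def inv {n : ℕ} (π : SPerm n) : SPerm n := (π.1⁻¹, fun j => π.2 (π.1⁻¹ j))

/-- Membership in `D_n`: an even number of negative values. -/
def InD {n : ℕ} (π : SPerm n) : Prop := (univ.filter fun i => val π i < 0).card % 2 = 0

instance {n : ℕ} (π : SPerm n) : Decidable (InD π) := by unfold InD; infer_instance

/-- Type D length. -/
def lenD {n : ℕ} (π : SPerm n) : ℕ :=
  (univ.filter fun p : Fin n × Fin n => p.1 < p.2 ∧ val π p.1 > val π p.2).card +
    (univ.filter fun p : Fin n × Fin n => p.1 < p.2 ∧ val π p.1 + val π p.2 < 0).card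

/-- Type D descents for `n = m + 2`: position `0` (with `π_0 = -π_2`) and positions
`1, …, n - 1`. -/
def desD {m : ℕ} (π : SPerm (m + 2)) : ℕ :=
  (if - val π 1 > val π 0 then 1 else 0) +
    (univ.filter fun i : Fin (m + 1) => val π i.castSucc > val π i.succ).card

/-- `TSD_n^+` (`e = 0`) and `TSD_n^-` (`e = 1`) for `n = m + 2`, evaluated at real `s, t`. -/
noncomputable def TSD (m e : ℕ) (s t : ℝ) : ℝ :=
  ∑ π ∈ univ.filter (fun π : SPerm (m + 2) => InD π ∧ lenD π % 2 = e),
    t ^ desD π * s ^ desD (inv π)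

/-- `f` has a nonnegative two-sided gamma expansion of degree `n`. -/
def GammaPos (n : ℕ) (f : ℝ → ℝ → ℝ) : Prop :=
  ∃ γ : ℕ → ℕ → ℝ, (∀ i j, 0 ≤ γ i j) ∧ ∀ s t : ℝ,
    f s t = ∑ p ∈ (range (n + 1) ×ˢ range (n + 1)).filter (fun p => 2 * p.1 + p.2 ≤ n),
      γ p.1 p.2 * (s * t) ^ p.1 * (s + t) ^ p.2 * (1 + s * t) ^ (n - 2 * p.1 - p.2)

theorem even_two : univ.filter (fun π : SPerm 2 => InD π ∧ lenD π % 2 = 0) =
    {(1, fun _ => false), (1, fun _ => true)} := by decide +kernel

theorem TSD_two (s t : ℝ) : TSD 0 0 s t = 1 + t ^ 2 * s ^ 2 := by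
  unfold TSD
  rw [even_two, sum_pair (by decide)]
  have h1 : desD (m := 0) (1, fun _ => false) = 0 := by decide
  have h2 : desD (m := 0) (inv (1, fun _ => false)) = 0 := by decide
  have h3 : desD (m := 0) (1, fun _ => true) = 2 := by decide
  have h4 : desD (m := 0) (inv (1, fun _ => true)) = 2 := by decide
  rw [h1, h2, h3, h4]
  ring

/-- For `n = 2`, `TSD_2^+ = 1 + s² t²` has no nonnegative two-sided gamma expansion. -/
theorem result : ¬ ∀ m : ℕ, GammaPos (m + 2) (TSD m 0) ∧ GammaPos (m + 2) (TSD m 1) := by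
  intro h
  obtain ⟨γ, hγ, hf⟩ := (h 0).1
  have hs : (range (0 + 2 + 1) ×ˢ range (0 + 2 + 1)).filter (fun p => 2 * p.1 + p.2 ≤ 0 + 2) =
      {(0, 0), (0, 1), (0, 2), (1, 0)} := by decide
  have h0 := hf 0 0
  have h1 := hf 1 1
  rw [TSD_two, hs, sum_insert (by decide), sum_insert (by decide), sum_pair (by decide)] at h0 h1
  norm_num at h0 h1
  linarith [hγ 0 1, hγ 0 2, hγ 1 0]

end Pool.Agent.Results.MP_a0e11f_co.No
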